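import Mathlib
import Pool.Agent.Run7.h573.SCFinal

set_option autoImplicit false

/-!
Superconformal surfaces in Euclidean 4-space (the curvature ellipse is a circle or a point at
every point; these are the Wintgen ideal surfaces) with `Δ H = c H`, `c ≠ 0`.

The definitions are in `Pool.Agent.Run7.h573.SCMain`: `IsConformalImmersion U f` (smooth conformal
immersion of `U`, an open subset of the plane, into `E4 = EuclideanSpace ℝ (Fin 4)`), `Lap f F`
(Laplacian `div grad` of the induced metric), `II f p θ` (second fundamental form at the unit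
tangent vector of angle `θ`), `meanCurv f p` and `CircularCurvatureEllipse f p`.
-/

namespace Pool.Agent.Results.MP_c4dbfc_gt.NoSuperconformalNull2Type

open Run7.h573

/-- Let `f : U → E4` be a smooth conformal immersion of a connected open set of the plane whose
curvature ellipse is a circle (or a point) at every point, with `Δ (Δ f) = c Δ f` for a constant
`c ≠ 0`. Then `‖Δ f‖` is a constant `k`, and if `k ≠ 0` then `f` is of 1-type:
`Δ f = c (f - a)` and `‖f - a‖² = -2 / c` on `U` for a constant vector `a`. -/
theorem result (U : Set (ℝ × ℝ)) (f : ℝ × ℝ → E4) (c : ℝ)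
    (hU : IsOpen U) (hUc : IsConnected U) (hf : IsConformalImmersion U f)
    (hc : c ≠ 0) (hΔ : ∀ p ∈ U, Lap f (Lap f f) p = c • Lap f f p)
    (hci : ∀ p ∈ U, CircularCurvatureEllipse f p) :
    ∃ k : ℝ, (∀ p ∈ U, ‖Lap f f p‖ = k) ∧
      (k ≠ 0 → ∃ a : E4, ∀ p ∈ U, Lap f f p = c • (f p - a) ∧ ‖f p - a‖ ^ 2 = -2 / c) := by
  obtain ⟨k, hk⟩ := superconformal_const hU hUc.isPreconnected hf hc hΔ hci
  refine ⟨k, hk, fun hk0 => ?_⟩
  rcases superconformal_main hU hUc.isPreconnected hf hc hΔ hci with h | h
  · obtain ⟨p, hp⟩ := hUc.nonempty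
    exact absurd (by rw [← hk p hp, h p hp, norm_zero]) hk0
  · exact h

end Pool.Agent.Results.MP_c4dbfc_gt.NoSuperconformalNull2Type
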